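import Pool.Agent.H23.RFT.SHI
import Pool.Agent.H65.RFZ.QSHD

/-!
Row SHD of the board rft_modules: shields are likely if the tubes are easy.
-/

set_option autoImplicit false

noncomputable section

open MeasureTheory ProbabilityTheory

namespace Pool.Agent.H23.RFT

open Pool.Agent.H98.RFC Pool.Agent.H98.RFZ Pool.Agent.H98.RFT Pool.Agent.H65.RFZ.QUPG
  Pool.Agent.H65.RFZ.QLAY Pool.Agent.H65.RFZ.QSHD

/-- The tube is crossed by a path in `D`, whose steps at `Λ` are open. -/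
def Xv (R : ℕ) (Λ : Finset Site) (u : ℕ) (v y : Site) (D : Set Site)
    (ω : Finset (Site × Site)) : Prop :=
  ∃ (k : ℕ) (x : ℕ → Site), (∀ j, j ≤ k → x j ∈ D) ∧
    (∀ j, j < k → Tri (x (j + 1) - x j) ∧ (x j ∈ Λ ∨ x (j + 1) ∈ Λ →
      opn ω (x j) (x (j + 1)) ∧ x (j + 1) - x j ∈ box R)) ∧
    (∀ i, i ≤ k → nearSeg y (y + sm u v) (x i) (2 * u)) ∧
    x 0 ∈ eb y (2 * u) ∧ x k ∈ eb (y + sm u v) (2 * u)

theorem mem_hull {R : ℕ} {Λ : Finset Site} {a b : Site} (ha : a ∈ Λ) (hab : b - a ∈ box R) :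
    b ∈ hull R Λ := by
  unfold hull
  rw [Finset.mem_biUnion]
  refine ⟨a, ha, ?_⟩
  unfold box at hab
  rw [Finset.mem_product, Finset.mem_Icc, Finset.mem_Icc, Prod.fst_sub, Prod.snd_sub] at hab
  unfold bx
  rw [Finset.mem_product, Finset.mem_Icc, Finset.mem_Icc]
  refine ⟨⟨?_, ?_⟩, ?_, ?_⟩ <;> linarith [hab.1.1, hab.1.2, hab.2.1, hab.2.2]

theorem zero_mem_box (R : ℕ) : (0 : Site) ∈ box R := by
  unfold box
  rw [Finset.mem_product, Finset.mem_Icc, Finset.mem_Icc, Prod.fst_zero, Prod.snd_zero]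
  have : (0 : ℤ) ≤ R := Int.natCast_nonneg R
  refine ⟨⟨?_, ?_⟩, ?_, ?_⟩ <;> linarith

theorem pair_prs {R : ℕ} {Λ : Finset Site} {a b : Site} (h : a ∈ Λ ∨ b ∈ Λ)
    (hab : b - a ∈ box R) : (a, b) ∈ prs R Λ := by
  have hba : a - b ∈ box R := by
    have h1 := box_neg hab
    rwa [neg_sub] at h1
  unfold prs
  rw [Finset.mem_filter, Finset.mem_product]
  refine ⟨?_, h, hab⟩
  rcases h with h | h
  · exact ⟨mem_hull h (by rw [sub_self]; exact zero_mem_box R), mem_hull h hab⟩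
  · exact ⟨mem_hull h hba, mem_hull h (by rw [sub_self]; exact zero_mem_box R)⟩

theorem opn_inter {R : ℕ} {Λ : Finset Site} {ω : Finset (Site × Site)} {a b : Site}
    (h : a ∈ Λ ∨ b ∈ Λ) (hab : b - a ∈ box R) (ho : opn ω a b) : opn (ω ∩ prs R Λ) a b := by
  rcases ho with h1 | h1
  · exact Or.inl (Finset.mem_inter.2 ⟨h1, pair_prs h hab⟩)
  · refine Or.inr (Finset.mem_inter.2 ⟨h1, pair_prs h.symm ?_⟩)
    have h2 := box_neg hab
    rwa [neg_sub] at h2

theorem opn_box {R : ℕ} {W : Finset Site} {ω : Finset (Site × Site)} (hω : ω ⊆ prs R W)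
    {a b : Site} (ho : opn ω a b) : b - a ∈ box R := by
  rcases ho with h1 | h1
  · have h2 := hω h1
    unfold prs at h2
    exact (Finset.mem_filter.1 h2).2.2
  · have h2 := hω h1
    unfold prs at h2
    have h3 := box_neg (Finset.mem_filter.1 h2).2.2
    rwa [neg_sub] at h3

/-- A site of `Λ` on a path that leaves `Λ` is connected to the outside. -/
theorem path_clu {R : ℕ} {Λ : Finset Site} {D : Set Site} {ω : Finset (Site × Site)} (k : ℕ)
    (x : ℕ → Site) (hD : ∀ j, j ≤ k → x j ∈ D)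
    (ho : ∀ j, j < k → Tri (x (j + 1) - x j) ∧ (x j ∈ Λ ∨ x (j + 1) ∈ Λ →
      opn ω (x j) (x (j + 1)) ∧ x (j + 1) - x j ∈ box R)) (hk : x k ∉ Λ) (j : ℕ) (hj : j ≤ k)
    (hjΛ : x j ∈ Λ) : x j ∈ clu Λ D ω := by
  classical
  have key : ∀ m j, j + m = k → x j ∈ Λ → conn D Λ ω (x j) := by
    intro m
    induction m with
    | zero =>
      intro j hj hjΛ
      have h1 : j = k := by omega
      rw [h1] at hjΛ
      exact absurd hjΛ hk
    | succ m ih =>
      intro j hj hjΛ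
      have h1 : j < k := by omega
      have h2 := ((ho j h1).2 (Or.inl hjΛ)).1
      have hstep : x j ∈ Λ ∧ x j ∈ D ∧ x (j + 1) ∈ D ∧ opn ω (x j) (x (j + 1)) :=
        ⟨hjΛ, hD j (by omega), hD (j + 1) h1, h2⟩
      by_cases h3 : x (j + 1) ∈ Λ
      · obtain ⟨w, hw, hp⟩ := ih (j + 1) (by omega) h3
        exact ⟨w, hw, Relation.ReflTransGen.head hstep hp⟩
      · exact ⟨x (j + 1), h3, Relation.ReflTransGen.single hstep⟩
  unfold clu
  rw [Finset.mem_filter]
  exact ⟨hjΛ, key (k - j) j (by omega) hjΛ⟩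

theorem shf_meas (V : Finset Site) (s : ℝ) : Measurable (shf V s) := by
  unfold shf
  refine measurable_pi_lambda _ fun x => ?_
  exact (measurable_pi_apply x).add_const _

theorem box_box_nsq {N n : ℕ} {x z : Site} (hx : x ∈ box (8 * N)) (hz : z ∈ box N) (hn : N = n) :
    nsq (x - z) ≤ (13 * (n : ℤ)) ^ 2 := by
  subst hn
  unfold box at hx hz
  rw [Finset.mem_product, Finset.mem_Icc, Finset.mem_Icc] at hx hz
  obtain ⟨⟨h1, h2⟩, h3, h4⟩ := hx
  obtain ⟨⟨h5, h6⟩, h7, h8⟩ := hz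
  push_cast at h1 h2 h3 h4
  unfold nsq
  rw [Prod.fst_sub, Prod.snd_sub]
  have e1 : (x.1 - z.1) ^ 2 ≤ (9 * (N : ℤ)) ^ 2 := sq_le_sq' (by linarith) (by linarith)
  have e2 : (x.2 - z.2) ^ 2 ≤ (9 * (N : ℤ)) ^ 2 := sq_le_sq' (by linarith) (by linarith)
  nlinarith

theorem pf_SHD (hSUB : D_SUB) (hGPF : D_GPF) (hCM : T_CM) (hCNT : D_CNT) (hQP : D_QP) :
    R_SHD := by
  classical
  intro R J hJ hTri T ε δ s C₀ n M K' u v₁ v₂ z V hT hRNG hz hu hδ hp1 hp2 hE hMK
  have := gam_prob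
  obtain ⟨y, a, ha, hseg, hend, hshield⟩ := hRNG
  set Λ : Finset Site := box (8 * (n * u)) with hΛ
  let W : Fin 4 → Finset Site := fun i => tube (y i) (y i + sm u (a i)) (K' * u)
  -- the start points
  have hy : ∀ i, nsq (z - y i) ≤ (((M + 100) * u : ℕ) : ℤ) ^ 2 := by
    intro i
    have h1 := hseg i (y i) ⟨0, le_rfl, zero_le_one, by
      have h2 : (((y i).1 : ℝ) - (((y i).1 : ℝ) + 0 * ((((y i + sm u (a i)).1 : ℤ) : ℝ) -
        ((y i).1 : ℝ)))) ^ 2 + (((y i).2 : ℝ) - (((y i).2 : ℝ) +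
        0 * ((((y i + sm u (a i)).2 : ℤ) : ℝ) - ((y i).2 : ℝ)))) ^ 2 = 0 := by ring
      rw [h2]
      positivity⟩
    rw [mem_eb] at h1
    have h3 : nsq (z - y i) = nsq (y i - z) := by
      unfold nsq
      rw [Prod.fst_sub, Prod.snd_sub, Prod.fst_sub, Prod.snd_sub]
      ring
    rw [h3]
    exact h1
  have hsub : ∀ i, Λ ⊆ W i := by
    intro i x hx
    refine mem_tube ?_
    have h1 := box_box_nsq hx hz rfl
    have h2 : x - y i = (x - z) + (z - y i) := by abel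
    have hMK' : (M : ℤ) + 200 + 20 * n ≤ K' := by exact_mod_cast hMK
    have hu0 : (0 : ℤ) ≤ u := Int.natCast_nonneg u
    have h4 := nsq_add (x := x - z) (y := z - y i) (s := 13 * ((n * u : ℕ) : ℤ)) (by positivity)
      (Int.natCast_nonneg ((M + 100) * u)) h1 (hy i)
    rw [h2]
    refine h4.trans (pow_le_pow_left₀ (by positivity) ?_ 2)
    push_cast
    have hn0 : (0 : ℤ) ≤ n := Int.natCast_nonneg n
    nlinarith [mul_nonneg hn0 hu0]
  -- pointwise bound
  have hpt : ∀ h : Site → ℝ,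
      1 - QP R J h T Λ (fun D ω => Shield (clu Λ D ω) z u C₀) ≤
        ∑ i, (1 - QP R J h T (W i) (CrsT u (a i) (y i))) := by
    intro h
    obtain ⟨hQ1, hQ2, hQ3⟩ := hQP R J hJ h T hT Λ
    rw [← (hQ1 fun D ω => Shield (clu Λ D ω) z u C₀).2.2]
    have h1 : QP R J h T Λ (fun D ω => ¬ Shield (clu Λ D ω) z u C₀) ≤
        QP R J h T Λ (fun D ω => ∃ i ∈ (Finset.univ : Finset (Fin 4)),
          ¬ Xv R Λ u (a i) (y i) D ω) := by
      refine hQ2 _ _ ?_
      intro D ω _ _ _ hn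
      by_contra hcon
      push Not at hcon
      refine hn (hshield (clu Λ D ω) fun i => ?_)
      obtain ⟨k, x, hx1, hx2, hx3, hx4, hx5⟩ := hcon i (Finset.mem_univ i)
      refine ⟨k, x, ?_, fun j hj => (hx2 j hj).1, hx3, hx4, hx5⟩
      intro j hj
      by_cases hjΛ : x j ∈ Λ
      · exact Or.inl (path_clu k x hx1 hx2 (hend i (x k) (Or.inr hx5)) j hj hjΛ)
      · exact Or.inr fun h2 => hjΛ (hE h2)
    refine h1.trans ((hQ3 (Fin 4) Finset.univ fun i D ω => ¬ Xv R Λ u (a i) (y i) D ω).trans ?_)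
    refine Finset.sum_le_sum fun i _ => ?_
    rw [(hQ1 (Xv R Λ u (a i) (y i))).2.2]
    have h2 : QP R J h T (W i) (CrsT u (a i) (y i)) ≤ QP R J h T (W i) (Xv R Λ u (a i) (y i)) := by
      refine (hQP R J hJ h T hT (W i)).2.1 _ _ ?_
      intro D ω _ hω hωJ ⟨k, x, hx1, hx2, hx3, hx4⟩
      refine ⟨k, x, hx1.1, fun j hj => ⟨opn_tri hJ hTri hωJ (hx1.2 j hj), fun _ =>
        ⟨hx1.2 j hj, opn_box hω (hx1.2 j hj)⟩⟩, hx2, hx3, hx4⟩
    have h3 : QP R J h T (W i) (Xv R Λ u (a i) (y i)) ≤ QP R J h T Λ (Xv R Λ u (a i) (y i)) := by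
      refine hSUB R J hJ h T hT Λ (W i) (hsub i) _ ?_ ?_
      · intro D D' ω hD ⟨k, x, hx1, hx2⟩
        exact ⟨k, x, fun j hj => hD (hx1 j hj), hx2⟩
      · intro D ω ⟨k, x, hx1, hx2, hx3⟩
        refine ⟨k, x, hx1, fun j hj => ⟨(hx2 j hj).1, fun h4 => ?_⟩, hx3⟩
        obtain ⟨h5, h6⟩ := (hx2 j hj).2 h4
        exact ⟨opn_inter h4 h6 h5, h6⟩
    linarith
  -- the functions
  let f : Fin 4 → (Site → ℝ) → ℝ := fun i η =>
    1 - QP R J (fun x => ε * η x) T (W i) (CrsT u (a i) (y i))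
  have hsc : Continuous fun η : Site → ℝ => fun x => ε * η x :=
    continuous_pi fun x => continuous_const.mul (continuous_apply x)
  have hfm : ∀ i, Measurable (f i) := by
    intro i
    have h1 : Continuous fun η : Site → ℝ =>
        QP R J (fun x => ε * η x) T (W i) (CrsT u (a i) (y i)) :=
      ((hCNT R J T hT (W i)).2.1 (CrsT u (a i) (y i))).comp hsc
    exact (continuous_const.sub h1).measurable
  have hf01 : ∀ i η, 0 ≤ f i η ∧ f i η ≤ 1 := by
    intro i η
    obtain ⟨h1, h2, -⟩ := (hQP R J hJ (fun x => ε * η x) T hT (W i)).1 (CrsT u (a i) (y i))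
    constructor
    · exact sub_nonneg.2 h2
    · exact sub_le_self _ h1
  have hfi : ∀ i, Integrable (f i) gam := by
    intro i
    refine Integrable.of_bound (hfm i).aestronglyMeasurable 1 (Filter.Eventually.of_forall fun η => ?_)
    rw [Real.norm_eq_abs, abs_of_nonneg (hf01 i η).1]
    exact (hf01 i η).2
  have hfint : ∀ i, ∫ η, f i η ∂gam ≤ δ := by
    intro i
    have h1 : ∫ η, f i η ∂gam = 1 - pCT R J T ε u (a i) K' := by
      have h2 := (hCM R J hJ T ε hT u (a i) K' (y i)).2.2.2.1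
      rw [← h2]
      unfold PA
      have h3 : Integrable (fun η : Site → ℝ =>
          QP R J (fun x => ε * η x) T (W i) (CrsT u (a i) (y i))) gam := by
        have h4 := (integrable_const (μ := gam) (1 : ℝ)).sub (hfi i)
        refine h4.congr (Filter.Eventually.of_forall fun η => ?_)
        change 1 - (1 - QP R J (fun x => ε * η x) T (W i) (CrsT u (a i) (y i))) = _
        ring
      change ∫ η, (1 - QP R J (fun x => ε * η x) T (W i) (CrsT u (a i) (y i))) ∂gam = _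
      rw [integral_sub (integrable_const _) h3, integral_const, smul_eq_mul, mul_one]
      simp
      rfl
    rw [h1]
    rcases ha i with h | h
    · rw [h]
      linarith
    · rw [h]
      linarith
  have hfsm : ∀ i, Integrable (fun η => f i (shf V s η)) gam := by
    intro i
    refine Integrable.of_bound ((hfm i).comp (shf_meas V s)).aestronglyMeasurable 1
      (Filter.Eventually.of_forall fun η => ?_)
    rw [Real.norm_eq_abs, abs_of_nonneg (hf01 i _).1]
    exact (hf01 i _).2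
  have hmain : ∫ η, (1 - QP R J (fun x => ε * shf V s η x) T Λ
      (fun D ω => Shield (clu Λ D ω) z u C₀)) ∂gam ≤ ∫ η, ∑ i, f i (shf V s η) ∂gam := by
    refine integral_mono_of_nonneg (Filter.Eventually.of_forall fun η => ?_)
      (integrable_finsetSum _ fun i _ => hfsm i) (Filter.Eventually.of_forall fun η => ?_)
    · have h1 := ((hQP R J hJ (fun x => ε * shf V s η x) T hT Λ).1
        (fun D ω => Shield (clu Λ D ω) z u C₀)).2.1
      exact sub_nonneg.2 h1
    · exact hpt fun x => ε * shf V s η x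
  refine hmain.trans ?_
  rw [integral_finsetSum _ fun i _ => hfsm i]
  have h2 : ∀ i ∈ (Finset.univ : Finset (Fin 4)), ∫ η, f i (shf V s η) ∂gam ≤
      Real.exp (s ^ 2 * (V.card : ℝ) / 2) * Real.sqrt δ := by
    intro i _
    refine (hGPF V s (f i) (hfm i) (hf01 i)).trans ?_
    exact mul_le_mul_of_nonneg_left (Real.sqrt_le_sqrt (hfint i)) (Real.exp_pos _).le
  refine (Finset.sum_le_sum h2).trans (le_of_eq ?_)
  rw [Finset.sum_const, Finset.card_univ, Fintype.card_fin, nsmul_eq_mul]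
  norm_num

end Pool.Agent.H23.RFT
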