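import Pool.Agent.H98.RFT.Targets3
import Pool.Agent.H65.RFZ.QLAY

/-!
Row POS of the board rft_modules: the influence is positive.
-/

set_option autoImplicit false

noncomputable section

namespace Pool.Agent.H23.RFT

open Pool.Agent.H98.RFC Pool.Agent.H98.RFZ Pool.Agent.H98.RFT Pool.Agent.H65.RFZ.QUPG
  Pool.Agent.H65.RFZ.QLAY

theorem wt_pos (R : ℕ) (J h : Site → ℝ) (T : ℝ) (W : Finset Site) (B : Set Site)
    (S : Finset Site) : 0 < wt R J h T W B S := Real.exp_pos _

theorem Zf_pos (R : ℕ) (J h : Site → ℝ) (T : ℝ) (W : Finset Site) (B : Set Site) :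
    0 < Zf R J h T W B :=
  Finset.sum_pos (fun S _ => wt_pos R J h T W B S) ⟨∅, Finset.empty_mem_powerset _⟩

theorem qe_pos (J : Site → ℝ) (T : ℝ) (e : Site × Site) : 0 < qe J T e := Real.exp_pos _

theorem qe_le {R : ℕ} {J : Site → ℝ} (hJ : IsCoupling R J) {T : ℝ} (hT : 0 < T)
    (e : Site × Site) : qe J T e ≤ 1 := by
  unfold qe
  rw [Real.exp_le_one_iff]
  have := hJ.nonneg (e.1 - e.2)
  exact div_nonpos_of_nonpos_of_nonneg (by linarith) hT.le

theorem bw_nonneg {R : ℕ} {J : Site → ℝ} (hJ : IsCoupling R J) {T : ℝ} (hT : 0 < T)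
    (P ω : Finset (Site × Site)) : 0 ≤ bw P (qe J T) ω := by
  unfold bw
  refine mul_nonneg (Finset.prod_nonneg fun e _ => ?_) (Finset.prod_nonneg fun e _ => (qe_pos J T e).le)
  linarith [qe_le hJ hT e]

theorem ind_nonneg (p : Prop) : 0 ≤ ind p := by
  unfold ind
  split <;> norm_num

/-- One configuration of positive weight in the event is enough. -/
theorem QP_pos {R : ℕ} {J : Site → ℝ} (hJ : IsCoupling R J) (h : Site → ℝ) {T : ℝ} (hT : 0 < T)
    (W : Finset Site) (A : Set Site → Finset (Site × Site) → Prop) (S S' : Finset Site)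
    (hS : S ⊆ W) (hS' : S' ⊆ W) (ω : Finset (Site × Site)) (hω : ω ⊆ prs R W)
    (hωJ : ∀ e ∈ ω, 0 < J (e.1 - e.2)) (hA : A (Dq W S S') ω) : 0 < QP R J h T W A := by
  classical
  unfold QP Qd Qe Qg
  refine div_pos ?_ (mul_pos (Zf_pos _ _ _ _ _ _) (Zf_pos _ _ _ _ _ _))
  have hn : ∀ (S S' : Finset Site) (ω : Finset (Site × Site)),
      0 ≤ wt R J h T W (↑W)ᶜ S * wt R J h T W ∅ S' * bw (prs R W) (qe J T) ω *
        ind (A (Dq W S S') ω) := fun S S' ω =>
    mul_nonneg (mul_nonneg (mul_nonneg (wt_pos _ _ _ _ _ _ _).le (wt_pos _ _ _ _ _ _ _).le)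
      (bw_nonneg hJ hT _ _)) (ind_nonneg _)
  refine Finset.sum_pos' (fun S _ => Finset.sum_nonneg fun S' _ => Finset.sum_nonneg fun ω _ =>
    hn S S' ω) ⟨S, Finset.mem_powerset.2 hS, ?_⟩
  refine Finset.sum_pos' (fun S' _ => Finset.sum_nonneg fun ω _ =>
    hn S S' ω) ⟨S', Finset.mem_powerset.2 hS', ?_⟩
  refine Finset.sum_pos' (fun ω _ => hn S S' ω) ⟨ω, Finset.mem_powerset.2 hω, ?_⟩
  have h1 : ind (A (Dq W S S') ω) = 1 := if_pos hA
  change 0 < wt R J h T W (↑W)ᶜ S * wt R J h T W ∅ S' * bw (prs R W) (qe J T) ω *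
    ind (A (Dq W S S') ω)
  rw [h1, mul_one]
  refine mul_pos (mul_pos (wt_pos _ _ _ _ _ _ _) (wt_pos _ _ _ _ _ _ _)) ?_
  unfold bw
  refine mul_pos (Finset.prod_pos fun e he => ?_) (Finset.prod_pos fun e _ => qe_pos J T e)
  have h2 : qe J T e < 1 := by
    unfold qe
    rw [Real.exp_lt_one_iff]
    exact div_neg_of_neg_of_pos (by linarith [hωJ e he]) hT
  linarith

theorem sm_add (x z : Site) (k : ℕ) : x + sm (k + 1) z = (x + sm k z) + z := by
  unfold sm
  ext
  · simp only [Prod.fst_add]
    push_cast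
    ring
  · simp only [Prod.snd_add]
    push_cast
    ring

theorem pf_POS (hINF : D_INF) (_hBAS : D_BAS) : R_POS := by
  classical
  intro R J hJ ⟨z, hz0, hzJ⟩ h T hT
  have hzR : z ∈ box R := by
    by_contra hcon
    rw [hJ.range z hcon] at hzJ
    exact lt_irrefl _ hzJ
  have hP1 : ∀ (W : Finset Site), ∀ x ∈ W, 0 < inf1 R J h T W x := by
    intro W x hx
    rw [((hINF R J hJ h T hT).1 W x hx).1]
    refine QP_pos hJ h hT W _ W ∅ subset_rfl (Finset.empty_subset _)
      ((prs R W).filter fun e => 0 < J (e.1 - e.2)) (Finset.filter_subset _ _)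
      (fun e he => (Finset.mem_filter.1 he).2) ?_
    have hD : Dq W W ∅ = Set.univ := by
      unfold Dq
      simp
    rw [hD]
    -- the line leaves `W`
    have hex : ∃ k : ℕ, x + sm k z ∉ W := by
      by_contra hcon
      push Not at hcon
      have hinj : Function.Injective fun k : ℕ => x + sm k z := by
        intro k l hkl
        have h1 : sm k z = sm l z := add_left_cancel hkl
        unfold sm at h1
        rw [Prod.mk.injEq] at h1
        rcases (not_and_or.1 fun hc => hz0 (Prod.ext hc.1 hc.2) : ¬ z.1 = 0 ∨ ¬ z.2 = 0) with h2 | h2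
        · have h3 := mul_right_cancel₀ h2 h1.1
          exact_mod_cast h3
        · have h3 := mul_right_cancel₀ h2 h1.2
          exact_mod_cast h3
      exact (Set.infinite_range_of_injective hinj) (W.finite_toSet.subset (by
        rintro _ ⟨k, rfl⟩
        exact hcon k))
    have hstep : ∀ y ∈ W, opn ((prs R W).filter fun e => 0 < J (e.1 - e.2)) y (y + z) := by
      intro y hy
      left
      rw [Finset.mem_filter]
      refine ⟨?_, ?_⟩
      · unfold prs
        rw [Finset.mem_filter, Finset.mem_product]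
        have hb : ∀ w : Site, w ∈ box R → y + w ∈ hull R W := by
          intro w hw
          unfold hull
          rw [Finset.mem_biUnion]
          refine ⟨y, hy, ?_⟩
          unfold box at hw
          rw [Finset.mem_product, Finset.mem_Icc, Finset.mem_Icc] at hw
          unfold bx
          rw [Finset.mem_product, Finset.mem_Icc, Finset.mem_Icc, Prod.fst_add, Prod.snd_add]
          refine ⟨⟨?_, ?_⟩, ?_, ?_⟩ <;> linarith [hw.1.1, hw.1.2, hw.2.1, hw.2.2]
        have h0 : (0 : Site) ∈ box R := by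
          unfold box
          rw [Finset.mem_product, Finset.mem_Icc, Finset.mem_Icc, Prod.fst_zero, Prod.snd_zero]
          have : (0 : ℤ) ≤ R := Int.natCast_nonneg R
          refine ⟨⟨?_, ?_⟩, ?_, ?_⟩ <;> linarith
        have h1 := hb 0 h0
        rw [add_zero] at h1
        refine ⟨⟨h1, hb z hzR⟩, Or.inl hy, ?_⟩
        change y + z - y ∈ box R
        rw [add_sub_cancel_left]
        exact hzR
      · change 0 < J (y - (y + z))
        have h1 : y - (y + z) = -z := by abel
        rw [h1, hJ.even]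
        exact hzJ
    have hN := Nat.find_spec hex
    refine ⟨x + sm (Nat.find hex) z, hN, ?_⟩
    have hind : ∀ k, k ≤ Nat.find hex → Relation.ReflTransGen
        (fun a b => a ∈ W ∧ a ∈ (Set.univ : Set Site) ∧ b ∈ (Set.univ : Set Site) ∧
          opn ((prs R W).filter fun e => 0 < J (e.1 - e.2)) a b) x (x + sm k z) := by
      intro k
      induction k with
      | zero =>
        intro _
        have h1 : x + sm 0 z = x := by
          unfold sm
          ext <;> simp
        rw [h1]
      | succ k ih =>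
        intro hk
        refine Relation.ReflTransGen.tail (ih (by omega)) ?_
        have h1 : x + sm k z ∈ W := by
          by_contra hcon
          exact Nat.find_min hex (by omega) hcon
        refine ⟨h1, trivial, trivial, ?_⟩
        rw [sm_add]
        exact hstep _ h1
    exact hind _ le_rfl
  refine ⟨hP1, ?_⟩
  intro u C y hu hC
  have hR1 : 1 ≤ R := by
    rcases Nat.eq_zero_or_pos R with h0 | h0
    · exfalso
      apply hz0
      rw [h0] at hzR
      unfold box at hzR
      rw [Finset.mem_product, Finset.mem_Icc, Finset.mem_Icc] at hzR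
      push_cast at hzR
      ext
      · change z.1 = 0
        linarith [hzR.1.1, hzR.1.2]
      · change z.2 = 0
        linarith [hzR.2.1, hzR.2.2]
    · exact h0
  have hJt : 0 < Jt R J := by
    unfold Jt
    exact Finset.sum_pos' (fun w _ => hJ.nonneg w) ⟨z, hzR, hzJ⟩
  have hCu : 10 * u ≤ C * u := Nat.mul_le_mul_right _ (by omega)
  have huR : (0 : ℝ) < u := by exact_mod_cast hu
  have hRR : (0 : ℝ) < R := by exact_mod_cast hR1
  unfold bz
  refine mul_pos (by positivity) ?_
  refine Finset.sum_pos (fun x hx => hP1 _ x (eb_mono y hCu (Finset.mem_sdiff.1 hx).1)) ?_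
  refine ⟨y + ((10 * (u : ℤ), 0) : Site), ?_⟩
  rw [Finset.mem_sdiff, mem_eb, mem_eb, add_sub_cancel_left]
  unfold nsq
  have hu1 : (1 : ℤ) ≤ u := by exact_mod_cast hu
  push_cast
  constructor
  · nlinarith
  · nlinarith

end Pool.Agent.H23.RFT
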