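import Pool.Agent.H98.RFT.Targets3
import Pool.Agent.H65.RFZ.QLAY

/-!
Row RAD of the board rft_modules: some circle is a cheap local cut.
-/

set_option autoImplicit false

noncomputable section

namespace Pool.Agent.H23.RFT

open Pool.Agent.H98.RFC Pool.Agent.H98.RFZ Pool.Agent.H98.RFT Pool.Agent.H65.RFZ.QUPG
  Pool.Agent.H65.RFZ.QLAY

/-- The weighted capacity of a ball: only the outer shell counts. -/
theorem cap_ball_w {R : ℕ} {J : Site → ℝ} (hJ : IsCoupling R J) (f : Site → ℝ) (z : Site)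
    (r : ℕ) (hf : ∀ x ∈ eb z (r + 2 * R), 0 ≤ f x) :
    ∑ a ∈ eb z (r + 2 * R), ∑ b ∈ hull R (eb z (r + 2 * R)) \ eb z (r + 2 * R),
      J (a - b) * f a ≤ Jt R J * ∑ a ∈ eb z (r + 2 * R) \ eb z r, f a := by
  classical
  have h0 : ∑ a ∈ eb z (r + 2 * R) \ eb z r, f a =
      ∑ a ∈ eb z (r + 2 * R), if a ∉ eb z r then f a else 0 := by
    rw [Finset.sdiff_eq_filter, Finset.sum_filter]
  rw [h0, Finset.mul_sum]
  refine Finset.sum_le_sum fun a ha => ?_
  rw [← Finset.sum_mul]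
  by_cases h1 : a ∉ eb z r
  · rw [if_pos h1]
    exact mul_le_mul_of_nonneg_right (sum_J_le hJ a _) (hf a ha)
  · rw [if_neg h1, mul_zero]
    have h2 : ∑ b ∈ hull R (eb z (r + 2 * R)) \ eb z (r + 2 * R), J (a - b) = 0 := by
      refine Finset.sum_eq_zero fun b hb => ?_
      refine hJ.range _ fun h5 => ?_
      exact (Finset.mem_sdiff.1 hb).2 (eb_step (not_not.1 h1) h5)
    rw [h2, zero_mul]

theorem pf_RAD (hINF : D_INF) : R_RAD := by
  classical
  intro R J hJ hR h T hT u C z hu hC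
  set f : Site → ℝ := fun x => inf1 R J h T (eb z (C * u)) x with hf
  have hCu : 10 * u ≤ C * u := Nat.mul_le_mul_right _ (by omega)
  have hf0 : ∀ x ∈ eb z (10 * u), 0 ≤ f x := fun x hx =>
    ((hINF R J hJ h T hT).1 (eb z (C * u)) x (eb_mono z hCu hx)).2.1
  obtain ⟨m, hm1, hm2⟩ : ∃ m : ℕ, 2 * R * m ≤ 5 * u ∧ u ≤ R * m := by
    refine ⟨5 * u / (2 * R), Nat.mul_div_le _ _, ?_⟩
    have h1 : 5 * u < 2 * R * (5 * u / (2 * R) + 1) := Nat.lt_mul_div_succ _ (by omega)
    generalize 5 * u / (2 * R) = q at h1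
    nlinarith
  have hu0 : 0 < u := by omega
  have hm0 : 0 < m := by
    rcases Nat.eq_zero_or_pos m with h0 | h0
    · rw [h0, mul_zero] at hm2
      omega
    · exact h0
  let B : ℕ → ℝ := fun k => ∑ a ∈ eb z (5 * u + 2 * R * (k + 1)),
    ∑ b ∈ hull R (eb z (5 * u + 2 * R * (k + 1))) \ eb z (5 * u + 2 * R * (k + 1)),
      J (a - b) * f a
  have hB : ∀ k, k < m → B k ≤ Jt R J *
      ∑ a ∈ eb z (5 * u + 2 * R * (k + 1)) \ eb z (5 * u + 2 * R * k), f a := by
    intro k hk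
    have h1 : 5 * u + 2 * R * (k + 1) = (5 * u + 2 * R * k) + 2 * R := by ring
    have h2 : 2 * R * (k + 1) ≤ 2 * R * m := Nat.mul_le_mul_left _ hk
    have h3 := cap_ball_w hJ f z (5 * u + 2 * R * k) fun x hx =>
      hf0 x (eb_mono z (by omega) hx)
    rw [← h1] at h3
    exact h3
  have hJt := Jt_nonneg hJ
  -- the shells are disjoint
  have hsh : ∀ n, n ≤ m →
      ∑ k ∈ Finset.range n, ∑ a ∈ eb z (5 * u + 2 * R * (k + 1)) \ eb z (5 * u + 2 * R * k), f a =
      ∑ a ∈ eb z (5 * u + 2 * R * n) \ eb z (5 * u), f a := by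
    intro n
    induction n with
    | zero => intro _; simp
    | succ n ih =>
      intro hn
      rw [Finset.sum_range_succ, ih (by omega)]
      have hd : Disjoint (eb z (5 * u + 2 * R * n) \ eb z (5 * u))
          (eb z (5 * u + 2 * R * (n + 1)) \ eb z (5 * u + 2 * R * n)) := by
        rw [Finset.disjoint_left]
        intro a ha hb
        exact (Finset.mem_sdiff.1 hb).2 (Finset.mem_sdiff.1 ha).1
      rw [← Finset.sum_union hd]
      refine Finset.sum_congr ?_ fun _ _ => rfl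
      have e1 : eb z (5 * u) ⊆ eb z (5 * u + 2 * R * n) := eb_mono z (by omega)
      have e2 : eb z (5 * u + 2 * R * n) ⊆ eb z (5 * u + 2 * R * (n + 1)) :=
        eb_mono z (by nlinarith)
      ext a
      simp only [Finset.mem_union, Finset.mem_sdiff]
      constructor
      · rintro (⟨h1, h2⟩ | ⟨h1, h2⟩)
        · exact ⟨e2 h1, h2⟩
        · exact ⟨h1, fun h3 => h2 (e1 h3)⟩
      · rintro ⟨h1, h2⟩
        by_cases h3 : a ∈ eb z (5 * u + 2 * R * n)
        · exact Or.inl ⟨h3, h2⟩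
        · exact Or.inr ⟨h1, h3⟩
  have hsum : ∑ k ∈ Finset.range m, B k ≤ ∑ _k ∈ Finset.range m, bz R J h T u C z := by
    have h1 : ∑ k ∈ Finset.range m, B k ≤ Jt R J * ∑ a ∈ eb z (10 * u) \ eb z (5 * u), f a := by
      calc ∑ k ∈ Finset.range m, B k ≤ ∑ k ∈ Finset.range m, Jt R J *
            ∑ a ∈ eb z (5 * u + 2 * R * (k + 1)) \ eb z (5 * u + 2 * R * k), f a :=
            Finset.sum_le_sum fun k hk => hB k (Finset.mem_range.1 hk)
        _ = Jt R J * ∑ a ∈ eb z (5 * u + 2 * R * m) \ eb z (5 * u), f a := by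
            rw [← Finset.mul_sum, hsh m le_rfl]
        _ ≤ Jt R J * ∑ a ∈ eb z (10 * u) \ eb z (5 * u), f a := by
            refine mul_le_mul_of_nonneg_left ?_ hJt
            refine Finset.sum_le_sum_of_subset_of_nonneg
              (Finset.sdiff_subset_sdiff (eb_mono z (by omega)) subset_rfl) fun a ha _ => ?_
            exact hf0 a (Finset.mem_sdiff.1 ha).1
    refine h1.trans ?_
    rw [Finset.sum_const, Finset.card_range, nsmul_eq_mul]
    unfold bz
    set Sf : ℝ := ∑ a ∈ eb z (10 * u) \ eb z (5 * u), f a with hSf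
    have hSf0 : 0 ≤ Sf := Finset.sum_nonneg fun a ha => hf0 a (Finset.mem_sdiff.1 ha).1
    have huR : (0 : ℝ) < u := by exact_mod_cast hu0
    have h2 : (u : ℝ) ≤ (R : ℝ) * m := by exact_mod_cast hm2
    have h3 : (m : ℝ) * (R * Jt R J / u * Sf) = (Jt R J * Sf) * ((R * m) / u) := by
      field_simp
    change Jt R J * Sf ≤ (m : ℝ) * (R * Jt R J / u * Sf)
    rw [h3]
    refine le_mul_of_one_le_right (mul_nonneg hJt hSf0) ?_
    rw [le_div_iff₀ huR, one_mul]
    exact h2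
  obtain ⟨k, hk, hk2⟩ := Finset.exists_le_of_sum_le (Finset.nonempty_range_iff.2 hm0.ne') hsum
  have hk' := Finset.mem_range.1 hk
  have h2 : 2 * R * (k + 1) ≤ 2 * R * m := Nat.mul_le_mul_left _ hk'
  exact ⟨5 * u + 2 * R * (k + 1), by omega, by omega, hk2⟩

end Pool.Agent.H23.RFT
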