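import Pool.Agent.H98.RFT.Targets3
import Pool.Agent.H65.RFZ.QLAY

/-!
Row SHI of the board rft_modules: shielded sites keep their local influence.
-/

set_option autoImplicit false

noncomputable section

namespace Pool.Agent.H23.RFT

open Pool.Agent.H98.RFC Pool.Agent.H98.RFZ Pool.Agent.H98.RFT Pool.Agent.H65.RFZ.QUPG
  Pool.Agent.H65.RFZ.QLAY

/-- The sites which are reached from the ball by a triangular path that avoids `K` outside the
ball. -/
def Rch (K : Finset Site) (z : Site) (u : ℕ) (x : Site) : Prop := ∃ (l : ℕ) (y : ℕ → Site),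
  (∀ i, i < l → Tri (y (i + 1) - y i)) ∧ y 0 ∈ eb z (12 * u) ∧ y l = x ∧
    ∀ j, j ≤ l → y j ∈ eb z (12 * u) ∨ y j ∉ K

theorem rch_base {K : Finset Site} {z : Site} {u : ℕ} {x : Site} (hx : x ∈ eb z (12 * u)) :
    Rch K z u x :=
  ⟨0, fun _ => x, fun i hi => absurd hi (Nat.not_lt_zero i), hx, rfl, fun _ _ => Or.inl hx⟩

theorem rch_step {K : Finset Site} {z : Site} {u : ℕ} {a b : Site} (ha : Rch K z u a)
    (hab : Tri (b - a)) (hb : b ∈ eb z (12 * u) ∨ b ∉ K) : Rch K z u b := by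
  obtain ⟨l, y, h1, h2, h3, h4⟩ := ha
  refine ⟨l + 1, fun j => if j ≤ l then y j else b, ?_, ?_, ?_, ?_⟩
  · intro i hi
    change Tri ((if i + 1 ≤ l then y (i + 1) else b) - (if i ≤ l then y i else b))
    by_cases h : i + 1 ≤ l
    · rw [if_pos h, if_pos (by omega)]
      exact h1 i h
    · have h5 : i = l := by omega
      rw [if_neg h, if_pos (by omega), h5, h3]
      exact hab
  · change (if 0 ≤ l then y 0 else b) ∈ eb z (12 * u)
    rw [if_pos (Nat.zero_le l)]
    exact h2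
  · change (if l + 1 ≤ l then y (l + 1) else b) = b
    rw [if_neg (by omega)]
  · intro j hj
    change (if j ≤ l then y j else b) ∈ eb z (12 * u) ∨ (if j ≤ l then y j else b) ∉ K
    by_cases h : j ≤ l
    · rw [if_pos h]
      exact h4 j h
    · rw [if_neg h]
      exact hb

theorem rch_sub {K : Finset Site} {z : Site} {u C : ℕ} (hsh : Shield K z u C) {x : Site}
    (hx : Rch K z u x) : x ∈ eb z (C * u) := by
  obtain ⟨l, y, h1, h2, h3, h4⟩ := hx
  by_contra hcon
  rw [← h3] at hcon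
  obtain ⟨j, hj, hj1, hj2⟩ := hsh l y h1 h2 hcon
  rcases h4 j hj with h5 | h5
  · exact hj2 h5
  · exact h5 hj1

theorem rch_out {K : Finset Site} {z : Site} {u : ℕ} {a b : Site} (ha : Rch K z u a)
    (hb : ¬ Rch K z u b) (hab : Tri (b - a)) : b ∈ K := by
  by_contra hcon
  exact hb (rch_step ha hab (Or.inr hcon))

theorem clu_conn {Λ : Finset Site} {D : Set Site} {ω : Finset (Site × Site)} {b : Site}
    (hb : b ∈ clu Λ D ω) : b ∈ Λ ∧ conn D Λ ω b ∧ b ∈ D := by
  classical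
  unfold clu at hb
  rw [Finset.mem_filter] at hb
  refine ⟨hb.1, hb.2, ?_⟩
  obtain ⟨y, hy, hp⟩ := hb.2
  rcases Relation.ReflTransGen.cases_head hp with h | ⟨c, h, -⟩
  · exact absurd (h ▸ hb.1) hy
  · exact h.2.1

theorem conn_mono {Λ : Finset Site} {D D' : Set Site} {ω ω' : Finset (Site × Site)} {b : Site}
    (hD : D ⊆ D') (hω : ω ⊆ ω') (hb : conn D Λ ω b) : conn D' Λ ω' b := by
  obtain ⟨y, hy, hp⟩ := hb
  refine ⟨y, hy, Relation.ReflTransGen.mono (fun p q h => ?_) _ _ hp⟩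
  refine ⟨h.1, hD h.2.1, hD h.2.2.1, ?_⟩
  rcases h.2.2.2 with h1 | h1
  · exact Or.inl (hω h1)
  · exact Or.inr (hω h1)

theorem clu_mono {Λ : Finset Site} {D D' : Set Site} {ω ω' : Finset (Site × Site)}
    (hD : D ⊆ D') (hω : ω ⊆ ω') : clu Λ D ω ⊆ clu Λ D' ω' := by
  classical
  intro b hb
  unfold clu at hb ⊢
  rw [Finset.mem_filter] at hb ⊢
  exact ⟨hb.1, conn_mono hD hω hb.2⟩

theorem shield_mono {K K' : Finset Site} {z : Site} {u C : ℕ} (h : K ⊆ K')
    (hs : Shield K z u C) : Shield K' z u C := by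
  intro l y h1 h2 h3
  obtain ⟨j, hj, hj1, hj2⟩ := hs l y h1 h2 h3
  exact ⟨j, hj, h hj1, hj2⟩

theorem opn_tri {R : ℕ} {J : Site → ℝ} (hJ : IsCoupling R J) (hT : IsTri J)
    {ω : Finset (Site × Site)} (hω : ∀ e ∈ ω, 0 < J (e.1 - e.2)) {a b : Site}
    (h : opn ω a b) : Tri (b - a) := by
  rcases h with h | h
  · have h1 := hω _ h
    have h2 : J (b - a) = J (a - b) := by
      rw [← hJ.even (a - b), neg_sub]
    exact hT _ (by rw [h2]; exact h1.ne')
  · exact hT _ (hω _ h).ne'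

/-- the set `I` of a shield is in `Fs` -/
theorem rch_Fs (hFST : R_FST) {Λ : Finset Site} {D : Set Site} {ω : Finset (Site × Site)}
    {z : Site} {u C : ℕ} (hsh : Shield (clu Λ D ω) z u C) {x : Site}
    (hx : Rch (clu Λ D ω) z u x) : x ∈ Fs (eb z (C * u)) D := by
  classical
  have h1 := (hFST (eb z (C * u)) D).2.2.1 ((eb z (C * u)).filter (Rch (clu Λ D ω) z u))
    (Finset.filter_subset _ _) (by
      intro a ha b hb hab
      rw [Finset.mem_filter] at ha hb
      have h2 : ¬ Rch (clu Λ D ω) z u b := fun h3 => hb ⟨rch_sub hsh h3, h3⟩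
      exact (clu_conn (rch_out ha.2 h2 hab)).2.2)
  exact h1 (Finset.mem_filter.2 ⟨rch_sub hsh hx, hx⟩)

/-- a path that leaves `Fs` leads to the outside of the domain -/
theorem exit_conn (hFST : R_FST) {R : ℕ} {J : Site → ℝ} (hJ : IsCoupling R J) (hT : IsTri J)
    {Λ : Finset Site} {D : Set Site} {ω : Finset (Site × Site)}
    (hω : ∀ e ∈ ω, 0 < J (e.1 - e.2)) {z : Site} {u C : ℕ} (hE : eb z (C * u) ⊆ Λ)
    (hsh : Shield (clu Λ D ω) z u C) {x : Site} (hx : x ∈ eb z (12 * u))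
    (hc : conn D (Fs (eb z (C * u)) D) ω x) : conn D Λ ω x := by
  obtain ⟨w, hw, hp⟩ := hc
  have hsub := (hFST (eb z (C * u)) D).1
  -- either the path stays in the reached set, or we are done
  have key : ∀ v, Relation.ReflTransGen (fun a b => a ∈ Fs (eb z (C * u)) D ∧ a ∈ D ∧ b ∈ D ∧
      opn ω a b) x v → (Rch (clu Λ D ω) z u v ∧ Relation.ReflTransGen
      (fun a b => a ∈ Λ ∧ a ∈ D ∧ b ∈ D ∧ opn ω a b) x v) ∨ conn D Λ ω x := by
    intro v hv
    induction hv with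
    | refl => exact Or.inl ⟨rch_base hx, Relation.ReflTransGen.refl⟩
    | @tail b c _ hbc ih =>
      rcases ih with ⟨h1, h2⟩ | h
      · have h3 : Relation.ReflTransGen (fun a b => a ∈ Λ ∧ a ∈ D ∧ b ∈ D ∧ opn ω a b) x c :=
          h2.tail ⟨hE (hsub hbc.1), hbc.2.1, hbc.2.2.1, hbc.2.2.2⟩
        by_cases h4 : Rch (clu Λ D ω) z u c
        · exact Or.inl ⟨h4, h3⟩
        · right
          have h5 := rch_out h1 h4 (opn_tri hJ hT hω hbc.2.2.2)
          obtain ⟨y, hy, hp'⟩ := (clu_conn h5).2.1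
          exact ⟨y, hy, h3.trans hp'⟩
      · exact Or.inr h
  rcases key w hp with ⟨h1, -⟩ | h
  · exact absurd (rch_Fs hFST hsh h1) hw
  · exact h

theorem pf_SHI (hFST : R_FST) (hFKF : R_FKF) (hINF : D_INF) (hBAS : D_BAS) (hQP : D_QP) :
    R_SHI := by
  classical
  intro R J hJ hTri h T hT Λ z u C hC hu hE x hx
  set E : Finset Site := eb z (C * u) with hEdef
  have hxE : x ∈ E := eb_mono z (Nat.mul_le_mul_right _ hC) hx
  have hxΛ : x ∈ Λ := hE hxE
  obtain ⟨hI1, hI2, -⟩ := hINF R J hJ h T hT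
  obtain ⟨-, -, -, hB4, hB5⟩ := hBAS R J hJ h T hT Λ
  obtain ⟨-, hQ2, hQ3⟩ := hQP R J hJ h T hT Λ
  set I : Finset (Finset Site) := E.powerset.filter (fun F => x ∈ F) with hI
  let G : Set Site → Finset (Site × Site) → Prop := fun D ω => Shield (clu Λ D ω) z u C
  have h1 : QP R J h T Λ G ≤ ∑ F ∈ I, QP R J h T Λ (fun D ω => Fs E D = F ∧ G D ω) := by
    refine le_trans (hQ2 _ (fun D ω => ∃ F ∈ I, Fs E D = F ∧ G D ω) ?_)
      (hQ3 (Finset Site) I fun F D ω => Fs E D = F ∧ G D ω)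
    intro D ω _ _ _ hG
    refine ⟨Fs E D, ?_, rfl, hG⟩
    rw [hI, Finset.mem_filter, Finset.mem_powerset]
    exact ⟨(hFST E D).1, rch_Fs hFST hG (rch_base hx)⟩
  have h2 : ∀ F ∈ I, QP R J h T Λ (fun D ω => Fs E D = F ∧ G D ω) * inf1 R J h T E x ≤
      QP R J h T Λ (fun D ω => (Fs E D = F ∧ G D ω) ∧ conn D F ω x) := by
    intro F hF
    rw [hI, Finset.mem_filter, Finset.mem_powerset] at hF
    have h3 := hFKF R J hJ hTri h T hT F Λ (hF.1.trans hE) x hF.2 (fun D => Fs E D = F)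
      (by
        intro D D' hDD hA
        have h4 := (hFST E D).2.2.2 D'
        rw [hA] at h4
        exact h4 hDD)
      (by
        intro D hA a ha b hb hab
        have h4 := (hFST E D).2.1
        rw [hA] at h4
        exact h4 a ha b hb hab)
      G (fun D D' ω ω' hD hω hG => shield_mono (clu_mono hD hω) hG)
    refine le_trans ?_ h3
    rw [mul_comm]
    refine mul_le_mul_of_nonneg_right (hI2 F E hF.1 x hF.2).2 ?_
    exact ((hQP R J hJ h T hT Λ).1 _).1
  have h3 : ∑ F ∈ I, QP R J h T Λ (fun D ω => (Fs E D = F ∧ G D ω) ∧ conn D F ω x) ≤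
      QP R J h T Λ (fun D ω => conn D Λ ω x) := by
    have h4 := hB5 (Finset Site) I fun F S S' ω =>
      ind ((Fs E (Dq Λ S S') = F ∧ G (Dq Λ S S') ω) ∧ conn (Dq Λ S S') F ω x)
    have h5 : ∑ F ∈ I, QP R J h T Λ (fun D ω => (Fs E D = F ∧ G D ω) ∧ conn D F ω x) =
        Qe R J h T Λ (fun S S' ω => ∑ F ∈ I,
          ind ((Fs E (Dq Λ S S') = F ∧ G (Dq Λ S S') ω) ∧ conn (Dq Λ S S') F ω x)) := h4.symm
    rw [h5]
    refine hB4 _ (fun S S' ω => ind (conn (Dq Λ S S') Λ ω x)) ?_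
    intro S S' ω _ _ _ hω
    set D := Dq Λ S S' with hD
    change ∑ F ∈ I, ind ((Fs E D = F ∧ G D ω) ∧ conn D F ω x) ≤ ind (conn D Λ ω x)
    by_cases hcon : conn D Λ ω x
    · have h6 : ind (conn D Λ ω x) = 1 := if_pos hcon
      rw [h6]
      calc ∑ F ∈ I, ind ((Fs E D = F ∧ G D ω) ∧ conn D F ω x) ≤
            ∑ F ∈ I, (if Fs E D = F then (1 : ℝ) else 0) := by
            refine Finset.sum_le_sum fun F _ => ?_
            unfold ind
            by_cases h7 : Fs E D = F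
            · rw [if_pos h7]
              split
              · exact le_rfl
              · exact zero_le_one
            · rw [if_neg h7, if_neg fun h8 => h7 h8.1.1]
        _ ≤ 1 := by
            rw [Finset.sum_ite_eq]
            split
            · exact le_rfl
            · exact zero_le_one
    · have h6 : ind (conn D Λ ω x) = 0 := if_neg hcon
      rw [h6]
      refine (Finset.sum_eq_zero fun F _ => ?_).le
      refine if_neg ?_
      rintro ⟨⟨h7, h8⟩, h9⟩
      rw [← h7] at h9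
      exact hcon (exit_conn hFST hJ hTri hω hE h8 hx h9)
  have h4 : inf1 R J h T Λ x = QP R J h T Λ (fun D ω => conn D Λ ω x) := (hI1 Λ x hxΛ).1
  rw [h4]
  calc QP R J h T Λ G * inf1 R J h T E x ≤
        (∑ F ∈ I, QP R J h T Λ (fun D ω => Fs E D = F ∧ G D ω)) * inf1 R J h T E x :=
        mul_le_mul_of_nonneg_right h1 (hI1 E x hxE).2.1
    _ = ∑ F ∈ I, QP R J h T Λ (fun D ω => Fs E D = F ∧ G D ω) * inf1 R J h T E x :=
        Finset.sum_mul _ _ _
    _ ≤ ∑ F ∈ I, QP R J h T Λ (fun D ω => (Fs E D = F ∧ G D ω) ∧ conn D F ω x) :=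
        Finset.sum_le_sum h2
    _ ≤ _ := h3

end Pool.Agent.H23.RFT
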